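import Mathlib

/-!
Generating series of locally finite families: `gen e c = ∑ i, c i * X ^ (e i)`.
-/

namespace Pool.Agent.Lib.QSeries

open PowerSeries

variable {K : Type*} [CommRing K] {ι κ : Type*}

/-- Reduction modulo `X ^ n`. -/
noncomputable def pi (K : Type*) [CommRing K] (n : ℕ) :
    PowerSeries K →+* (PowerSeries K ⧸ Ideal.span {(X : PowerSeries K) ^ n}) :=
  Ideal.Quotient.mk _

theorem pi_eq_iff {n : ℕ} {f g : PowerSeries K} :
    pi K n f = pi K n g ↔ ∀ i < n, coeff i f = coeff i g := by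
  unfold pi
  rw [Ideal.Quotient.eq, Ideal.mem_span_singleton, X_pow_dvd_iff]
  simp only [map_sub, sub_eq_zero]

theorem pi_eq_iff_dvd {n : ℕ} {f g : PowerSeries K} :
    pi K n f = pi K n g ↔ (X : PowerSeries K) ^ n ∣ f - g := by
  unfold pi
  rw [Ideal.Quotient.eq, Ideal.mem_span_singleton]

theorem pi_ext {f g : PowerSeries K} (h : ∀ n, pi K n f = pi K n g) : f = g := by
  ext i
  exact pi_eq_iff.mp (h (i + 1)) i (Nat.lt_succ_self i)

theorem pi_X_pow {n m : ℕ} (h : n ≤ m) : pi K n (X ^ m) = 0 := by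
  rw [← map_zero (pi K n), pi_eq_iff_dvd, sub_zero]
  exact pow_dvd_pow _ h

theorem pi_mono {n m : ℕ} (h : n ≤ m) {f g : PowerSeries K} (hfg : pi K m f = pi K m g) :
    pi K n f = pi K n g :=
  pi_eq_iff.mpr fun i hi => pi_eq_iff.mp hfg i (lt_of_lt_of_le hi h)

/-- `X^a * f ≡ X^a * g` modulo `X^n` as soon as `f ≡ g` modulo `X^m`, `n ≤ a + m`. -/
theorem pi_X_pow_mul {n a m : ℕ} (h : n ≤ a + m) {f g : PowerSeries K}
    (hfg : pi K m f = pi K m g) : pi K n (X ^ a * f) = pi K n (X ^ a * g) := by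
  rw [pi_eq_iff_dvd] at hfg ⊢
  rw [← mul_sub]
  refine (pow_dvd_pow _ h).trans ?_
  rw [pow_add]
  exact mul_dvd_mul_left _ hfg

/-- The series `∑ i, c i * X ^ (e i)`. -/
noncomputable def gen (e : ι → ℤ) (c : ι → K) : PowerSeries K :=
  PowerSeries.mk fun n => ∑ᶠ i, if e i = n then c i else 0

/-- Admissible exponent functions. -/
structure Adm (e : ι → ℤ) : Prop where
  nonneg : ∀ i, 0 ≤ e i
  fin : ∀ n : ℤ, {i | e i ≤ n}.Finite

theorem coeff_gen (e : ι → ℤ) (c : ι → K) (n : ℕ) (s : Finset ι)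
    (hs : ∀ i, e i = n → i ∈ s) :
    coeff n (gen e c) = ∑ i ∈ s, if e i = n then c i else 0 := by
  rw [gen, coeff_mk]
  apply finsum_eq_sum_of_support_subset
  intro i hi
  rw [Function.mem_support] at hi
  apply hs
  by_contra h
  exact hi (if_neg h)

theorem pi_gen (e : ι → ℤ) (he : ∀ i, 0 ≤ e i) (c : ι → K) (n : ℕ) (s : Finset ι)
    (hs : ∀ i, e i < n → i ∈ s) :
    pi K n (gen e c) = pi K n (∑ i ∈ s, C (c i) * X ^ (e i).toNat) := by
  rw [pi_eq_iff]
  intro j hj
  rw [coeff_gen e c j s (fun i hi => hs i (by omega)), map_sum]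
  refine Finset.sum_congr rfl fun i _ => ?_
  rw [coeff_C_mul, coeff_X_pow]
  have := he i
  by_cases h : e i = j
  · rw [if_pos h, if_pos (by omega), mul_one]
  · rw [if_neg h, if_neg (by omega), mul_zero]

theorem gen_congr {e e' : ι → ℤ} {c c' : ι → K} (h1 : ∀ i, e i = e' i) (h2 : ∀ i, c i = c' i) :
    gen e c = gen e' c' := by
  rw [funext h1, funext h2]

theorem Adm.prod {e : ι → ℤ} {f : κ → ℤ} (he : Adm e) (hf : Adm f) :
    Adm fun p : ι × κ => e p.1 + f p.2 where
  nonneg p := add_nonneg (he.nonneg _) (hf.nonneg _)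
  fin n := by
    refine ((he.fin n).prod (hf.fin n)).subset ?_
    intro p hp
    have h1 := he.nonneg p.1
    have h2 := hf.nonneg p.2
    simp only [Set.mem_ofPred_eq, Set.mem_prod] at hp ⊢
    constructor <;> omega

theorem gen_mul {e : ι → ℤ} {f : κ → ℤ} (he : Adm e) (hf : Adm f) (c : ι → K) (d : κ → K) :
    gen e c * gen f d = gen (fun p : ι × κ => e p.1 + f p.2) fun p => c p.1 * d p.2 := by
  apply pi_ext
  intro n
  rw [map_mul, pi_gen e he.nonneg c n (he.fin n).toFinset (fun i hi => by simp; omega),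
    pi_gen f hf.nonneg d n (hf.fin n).toFinset (fun i hi => by simp; omega),
    pi_gen _ (he.prod hf).nonneg _ n ((he.fin n).toFinset ×ˢ (hf.fin n).toFinset), ← map_mul,
    Finset.sum_mul_sum, Finset.sum_product]
  · congr 1
    refine Finset.sum_congr rfl fun i _ => Finset.sum_congr rfl fun j _ => ?_
    rw [Int.toNat_add (he.nonneg i) (hf.nonneg j), pow_add, map_mul]
    ring
  · intro p hp
    have h1 := he.nonneg p.1
    have h2 := hf.nonneg p.2
    simp only [Finset.mem_product, Set.Finite.mem_toFinset, Set.mem_ofPred_eq]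
    constructor <;> omega

theorem gen_add {e : ι → ℤ} (he : Adm e) (c d : ι → K) :
    gen e c + gen e d = gen e fun i => c i + d i := by
  ext n
  rw [map_add, coeff_gen e c n (he.fin n).toFinset (fun i hi => by simp; omega),
    coeff_gen e d n (he.fin n).toFinset (fun i hi => by simp; omega),
    coeff_gen e _ n (he.fin n).toFinset (fun i hi => by simp; omega), ← Finset.sum_add_distrib]
  refine Finset.sum_congr rfl fun i _ => ?_
  split_ifs <;> simp

theorem gen_smul {e : ι → ℤ} (he : Adm e) (a : K) (c : ι → K) :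
    C a * gen e c = gen e fun i => a * c i := by
  ext n
  rw [coeff_C_mul, coeff_gen e c n (he.fin n).toFinset (fun i hi => by simp; omega),
    coeff_gen e _ n (he.fin n).toFinset (fun i hi => by simp; omega), Finset.mul_sum]
  refine Finset.sum_congr rfl fun i _ => ?_
  split_ifs <;> simp

theorem gen_sub {e : ι → ℤ} (he : Adm e) (c d : ι → K) :
    gen e c - gen e d = gen e fun i => c i - d i := by
  rw [sub_eq_iff_eq_add, gen_add he]
  exact gen_congr (fun _ => rfl) fun i => by ring

theorem gen_shift {e : ι → ℤ} (he : Adm e) (a : ℕ) (c : ι → K) :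
    X ^ a * gen e c = gen (fun i => e i + a) c := by
  apply pi_ext
  intro n
  have h0 : ∀ i, 0 ≤ e i + a := fun i => by have := he.nonneg i; omega
  rw [map_mul, pi_gen e he.nonneg c n (he.fin n).toFinset (fun i hi => by simp; omega),
    pi_gen _ h0 c n (he.fin n).toFinset (fun i hi => by simp; omega), ← map_mul, Finset.mul_sum]
  congr 1
  refine Finset.sum_congr rfl fun i _ => ?_
  rw [Int.toNat_add (he.nonneg i) (by omega), pow_add, Int.toNat_natCast]
  ring

theorem gen_inj (e : ι → ℤ) (c : ι → K) (j : κ → ι) (hj : Function.Injective j)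
    (hc : ∀ i, i ∉ Set.range j → c i = 0) :
    gen e c = gen (fun k => e (j k)) fun k => c (j k) := by
  ext n
  rw [gen, gen, coeff_mk, coeff_mk,
    ← finsum_mem_range (f := fun i => if e i = n then c i else 0) hj,
    ← finsum_mem_univ]
  apply finsum_mem_inter_support_eq'
  intro i hi
  simp only [Set.mem_univ, true_iff]
  by_contra h
  apply hi
  simp only [hc i h, ite_self]

end Pool.Agent.Lib.QSeries
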