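import Pool.Agent.Lib.QSeries.Gen

/-!
The Jacobi triple product identity for formal power series, in the form of congruences
modulo `X ^ n` with finite products.
-/

namespace Pool.Agent.Lib.QSeries

open PowerSeries Finset

/-- `j (j - 1) / 2`. -/
def tri (j : ℤ) : ℤ := j * (j - 1) / 2

theorem two_tri (j : ℤ) : 2 * tri j = j * (j - 1) := by
  unfold tri
  have h : (2 : ℤ) ∣ j * (j - 1) := by
    have := Int.even_mul_pred_self j
    exact even_iff_two_dvd.mp this
  exact Int.mul_ediv_cancel' h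

/-- The exponent `N j (j - 1) / 2 + a j`. -/
def ex (N a : ℕ) (j : ℤ) : ℤ := N * tri j + a * j

theorem ex_ge {N a : ℕ} (ha : a ≤ N) (j : ℤ) : (N : ℤ) * (|j| - 1) ≤ ex N a j := by
  have h2 := two_tri j
  have ha' : (a : ℤ) ≤ N := by exact_mod_cast ha
  have ha0 : (0 : ℤ) ≤ a := by positivity
  have hN : (0 : ℤ) ≤ N := by positivity
  unfold ex
  rcases le_or_gt 0 j with hj | hj
  · rw [abs_of_nonneg hj]
    have h3 : j - 1 ≤ tri j := by
      have : 0 ≤ (j - 1) * (j - 2) := by
        rcases le_or_gt j 1 with h | h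
        · exact mul_nonneg_of_nonpos_of_nonpos (by omega) (by omega)
        · exact mul_nonneg (by omega) (by omega)
      nlinarith
    nlinarith [mul_le_mul_of_nonneg_left h3 hN, mul_nonneg ha0 hj]
  · rw [abs_of_neg hj]
    have h3 : -j - 1 ≤ tri j + j := by
      have : 0 ≤ (j + 1) * (j + 2) := by
        rcases le_or_gt j (-2) with h | h
        · exact mul_nonneg_of_nonpos_of_nonpos (by omega) (by omega)
        · exact mul_nonneg (by omega) (by omega)
      nlinarith
    nlinarith [mul_le_mul_of_nonneg_left h3 hN, mul_le_mul_of_nonpos_right ha' hj.le]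

theorem ex_nonneg {N a : ℕ} (ha : a ≤ N) (j : ℤ) : 0 ≤ ex N a j := by
  by_cases hj : j = 0
  · subst hj; simp [ex, tri]
  · have h1 : 1 ≤ |j| := Int.one_le_abs hj
    exact le_trans (mul_nonneg (by positivity) (by omega)) (ex_ge ha j)

theorem adm_ex {N a : ℕ} (hN : 0 < N) (ha : a ≤ N) : Adm (ex N a) where
  nonneg := ex_nonneg ha
  fin n := by
    refine (Set.finite_Icc (-(|n| + 1)) (|n| + 1)).subset ?_
    intro j hj
    simp only [Set.mem_ofPred_eq] at hj
    rw [Set.mem_Icc, ← abs_le]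
    by_contra h
    have h1 := ex_ge ha j
    have hN' : (1 : ℤ) ≤ N := by exact_mod_cast hN
    have := le_abs_self n
    have := abs_nonneg n
    nlinarith

section Gauss

variable {S : Type*} [CommRing S]

/-- Gaussian binomial coefficients. -/
def gauss (Q : S) : ℕ → ℕ → S
  | _, 0 => 1
  | 0, _ + 1 => 0
  | m + 1, k + 1 => gauss Q m k + Q ^ (k + 1) * gauss Q m (k + 1)

theorem gauss_zero (Q : S) (m : ℕ) : gauss Q m 0 = 1 := by cases m <;> rfl

theorem gauss_succ (Q : S) (m k : ℕ) :
    gauss Q (m + 1) (k + 1) = gauss Q m k + Q ^ (k + 1) * gauss Q m (k + 1) := rfl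

theorem gauss_of_lt (Q : S) : ∀ m k : ℕ, m < k → gauss Q m k = 0
  | _, 0, h => absurd h (Nat.not_lt_zero _)
  | 0, _ + 1, _ => rfl
  | m + 1, k + 1, h => by
    rw [gauss_succ, gauss_of_lt Q m k (by omega), gauss_of_lt Q m (k + 1) (by omega)]
    simp

theorem qbinom (Q y : S) (m : ℕ) : ∀ z : S, ∏ i ∈ range m, (y + z * Q ^ i) =
    ∑ k ∈ range (m + 1), gauss Q m k * Q ^ (k.choose 2) * z ^ k * y ^ (m - k) := by
  induction m with
  | zero => intro z; simp [gauss_zero]
  | succ m ih =>
    intro z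
    rw [prod_range_succ']
    have h1 : ∏ i ∈ range m, (y + z * Q ^ (i + 1)) = ∏ i ∈ range m, (y + (z * Q) * Q ^ i) :=
      prod_congr rfl fun i _ => by ring
    rw [h1, ih, sum_range_succ' _ (m + 1), pow_zero, mul_one, mul_add, sum_mul, sum_mul]
    have h2 : ∑ k ∈ range (m + 1), gauss Q m k * Q ^ (k.choose 2) * (z * Q) ^ k * y ^ (m - k) * y
        = ∑ k ∈ range (m + 1), Q ^ (k + 1) * gauss Q m (k + 1) * Q ^ ((k + 1).choose 2) *
          z ^ (k + 1) * y ^ (m + 1 - (k + 1)) +
          gauss Q (m + 1) 0 * Q ^ (Nat.choose 0 2) * z ^ 0 * y ^ (m + 1 - 0) := by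
      rw [sum_range_succ', sum_range_succ _ m, gauss_of_lt Q m (m + 1) (by omega), gauss_zero,
        gauss_zero]
      congr 1
      · simp only [mul_zero, zero_mul, add_zero]
        refine sum_congr rfl fun k hk => ?_
        have hk' := mem_range.mp hk
        rw [show m + 1 - (k + 1) = m - (k + 1) + 1 by omega]
        ring
      · simp [pow_succ]
    rw [h2, add_right_comm, ← sum_add_distrib]
    congr 1
    refine sum_congr rfl fun k _ => ?_
    rw [gauss_succ, Nat.choose_succ_succ' k 1, Nat.choose_one_right, Nat.add_sub_add_right]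
    ring

/-- `(Q; Q)_k`. -/
def qp (Q : S) (k : ℕ) : S := ∏ i ∈ range k, (1 - Q ^ (i + 1))

theorem qp_succ (Q : S) (k : ℕ) : qp Q (k + 1) = qp Q k * (1 - Q ^ (k + 1)) := prod_range_succ _ _

theorem gauss_mul (Q : S) : ∀ m k : ℕ, k ≤ m → gauss Q m k * qp Q k * qp Q (m - k) = qp Q m
  | m, 0, _ => by simp [gauss_zero, qp]
  | 0, k + 1, h => absurd h (by omega)
  | m + 1, k + 1, h => by
    have h1 := gauss_mul Q m k (by omega)
    rw [gauss_succ, Nat.add_sub_add_right, qp_succ Q m, qp_succ Q k]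
    rcases Nat.lt_or_ge m (k + 1) with h2 | h2
    · rw [gauss_of_lt Q m (k + 1) h2]
      obtain rfl : k = m := by omega
      linear_combination (1 - Q ^ (k + 1)) * h1
    · have h3 := gauss_mul Q m (k + 1) h2
      obtain ⟨l, rfl⟩ : ∃ l, m = k + 1 + l := ⟨m - (k + 1), by omega⟩
      rw [show k + 1 + l - k = l + 1 by omega] at h1 ⊢
      rw [show k + 1 + l - (k + 1) = l by omega, qp_succ Q k] at h3
      rw [qp_succ Q l] at h1 ⊢
      linear_combination (1 - Q ^ (k + 1)) * h1 + Q ^ (k + 1) * (1 - Q ^ (l + 1)) * h3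

theorem prod_pow_range (Q : S) (n : ℕ) : ∏ i ∈ range n, Q ^ i = Q ^ (n.choose 2) := by
  induction n with
  | zero => simp
  | succ n ih =>
    rw [prod_range_succ, ih, Nat.choose_succ_succ' n 1, Nat.choose_one_right]
    ring

end Gauss

theorem two_choose (k : ℕ) : 2 * ((k.choose 2 : ℕ) : ℤ) = k * (k - 1) := by
  induction k with
  | zero => simp
  | succ k ih =>
    rw [Nat.choose_succ_succ' k 1, Nat.choose_one_right]
    push_cast
    linear_combination ih

variable {K : Type*} [Field K]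

/-- The theta series `∑ j, u ^ j * X ^ (N j (j - 1) / 2 + a j)`. -/
noncomputable def th (u : K) (N a : ℕ) : PowerSeries K := gen (ex N a) fun j => u ^ j

theorem finite_jtp {u : K} (hu : u ≠ 0) {N a : ℕ} (ha : a ≤ N) (n : ℕ) :
    (∏ i ∈ range n, (1 + C u * X ^ (a + N * i))) *
      (∏ i ∈ range n, (1 + C u⁻¹ * X ^ (N - a + N * i))) =
    ∑ k ∈ range (2 * n + 1), gauss ((X : PowerSeries K) ^ N) (2 * n) k *
      (C (u ^ ((k : ℤ) - n)) * X ^ (ex N a ((k : ℤ) - n)).toNat) := by
  have hq := qbinom ((X : PowerSeries K) ^ N) ((X ^ N) ^ n) (2 * n) (C u * X ^ a)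
  have hW : (C u * X ^ a : PowerSeries K) ^ n * (X ^ N) ^ (n.choose 2) * ((X ^ N) ^ n) ^ n ≠ 0 := by
    have h1 : (C u : PowerSeries K) ≠ 0 := by
      intro h
      apply hu
      simpa using congrArg constantCoeff h
    have h2 : (X : PowerSeries K) ≠ 0 := X_ne_zero
    positivity
  apply mul_left_cancel₀ hW
  have huu : (C u : PowerSeries K) * C u⁻¹ = 1 := by
    rw [← map_mul, mul_inv_cancel₀ hu, map_one]
  have hc : ∀ w : PowerSeries K, w ^ n = ∏ _i ∈ range n, w := fun w => by simp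
  have e1 : ∏ i ∈ range n, ((X ^ N) ^ n + (C u * X ^ a : PowerSeries K) * (X ^ N) ^ i) =
      (C u * X ^ a) ^ n * (X ^ N) ^ (n.choose 2) *
        ∏ i ∈ range n, (1 + C u⁻¹ * X ^ (N - a + N * i)) := by
    rw [← prod_range_reflect (fun i => (1 + C u⁻¹ * X ^ (N - a + N * i) : PowerSeries K)),
      ← prod_pow_range, hc (C u * X ^ a), ← prod_mul_distrib, ← prod_mul_distrib]
    refine prod_congr rfl fun i hi => ?_
    have hi' := mem_range.mp hi
    obtain ⟨b, rfl⟩ : ∃ b, N = a + b := ⟨N - a, by omega⟩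
    obtain ⟨l, rfl⟩ : ∃ l, n = i + 1 + l := ⟨n - (i + 1), by omega⟩
    rw [show i + 1 + l - 1 - i = l by omega, Nat.add_sub_cancel_left]
    linear_combination (-(X ^ (a + b)) ^ (i + 1 + l)) * huu
  have e2 : ∏ i ∈ range n, ((X ^ N) ^ n + (C u * X ^ a : PowerSeries K) * (X ^ N) ^ (n + i)) =
      ((X ^ N) ^ n) ^ n * ∏ i ∈ range n, (1 + C u * X ^ (a + N * i)) := by
    rw [hc ((X ^ N) ^ n), ← prod_mul_distrib]
    refine prod_congr rfl fun i _ => ?_
    ring
  rw [two_mul, prod_range_add, e1, e2, ← two_mul] at hq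
  rw [mul_sum]
  refine Eq.trans (Eq.trans (by ring) hq) (sum_congr rfl fun k hk => ?_)
  have hk' := mem_range.mp hk
  have hu' : (C u : PowerSeries K) ^ k = C u ^ n * C (u ^ ((k : ℤ) - n)) := by
    rw [← map_pow, ← map_pow, ← map_mul, zpow_sub₀ hu, zpow_natCast, zpow_natCast]
    congr 1
    field_simp
  have hx : N * k.choose 2 + a * k + N * n * (2 * n - k) =
      a * n + N * n.choose 2 + N * n * n + (ex N a ((k : ℤ) - n)).toNat := by
    have h0 := ex_nonneg ha ((k : ℤ) - n)
    zify [show k ≤ 2 * n by omega]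
    rw [Int.toNat_of_nonneg h0]
    unfold ex
    apply mul_left_cancel₀ (two_ne_zero (α := ℤ))
    linear_combination N * two_choose k - N * two_choose n - N * two_tri ((k : ℤ) - n)
  have hx' : (X : PowerSeries K) ^ (N * k.choose 2 + a * k + N * n * (2 * n - k)) =
      X ^ (a * n + N * n.choose 2 + N * n * n + (ex N a ((k : ℤ) - n)).toNat) := by rw [hx]
  rw [mul_pow, mul_pow, hu']
  simp only [← pow_mul]
  simp only [pow_add] at hx'
  linear_combination gauss (X ^ N) (2 * n) k * C u ^ n * C (u ^ ((k : ℤ) - n)) * hx'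

theorem pi_qp {N l k : ℕ} (h : l ≤ k) :
    pi K (N * (l + 1)) (qp ((X : PowerSeries K) ^ N) k) = pi K (N * (l + 1)) (qp (X ^ N) l) := by
  induction k, h using Nat.le_induction with
  | base => rfl
  | succ k hk ih =>
    rw [qp_succ, map_mul, ih, map_sub, ← pow_mul, pi_X_pow (Nat.mul_le_mul_left _ (by omega))]
    simp

theorem isUnit_qp {N : ℕ} (hN : 0 < N) (k : ℕ) : IsUnit (qp ((X : PowerSeries K) ^ N) k) := by
  rw [isUnit_iff_constantCoeff]
  have : constantCoeff (qp ((X : PowerSeries K) ^ N) k) = 1 := by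
    unfold qp
    rw [map_prod]
    refine prod_eq_one fun i _ => ?_
    simp [hN.ne']
  rw [this]
  exact isUnit_one

/-- Jacobi's triple product identity, modulo `X ^ n`. -/
theorem jtp {u : K} (hu : u ≠ 0) {N a : ℕ} (hN : 0 < N) (ha : a ≤ N) (n : ℕ) :
    pi K n (th u N a) = pi K n ((∏ i ∈ range n, (1 + C u * X ^ (a + N * i))) *
      (∏ i ∈ range n, (1 + C u⁻¹ * X ^ (N - a + N * i))) * qp (X ^ N) n) := by
  have hN' : (1 : ℤ) ≤ N := by exact_mod_cast hN
  rw [finite_jtp hu ha, th,
    pi_gen _ (ex_nonneg ha) _ n ((range (2 * n + 1)).image fun k : ℕ => (k : ℤ) - n),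
    sum_image (fun x _ y _ h => by simpa using h), sum_mul, map_sum, map_sum]
  · refine sum_congr rfl fun k hk => ?_
    have hk' := mem_range.mp hk
    set l := min k (2 * n - k) with hl
    have key : pi K (N * (l + 1)) (gauss ((X : PowerSeries K) ^ N) (2 * n) k * qp (X ^ N) n) =
        pi K (N * (l + 1)) 1 := by
      have h1 := congrArg (pi K (N * (l + 1))) (gauss_mul ((X : PowerSeries K) ^ N) (2 * n) k
        (by omega))
      rw [map_mul, map_mul, pi_qp (show l ≤ k by omega), pi_qp (show l ≤ 2 * n - k by omega),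
        pi_qp (show l ≤ 2 * n by omega)] at h1
      rw [map_mul, pi_qp (show l ≤ n by omega), map_one]
      have h2 := (isUnit_qp (K := K) hN l).map (pi K (N * (l + 1)))
      apply h2.mul_right_cancel
      rw [h1, one_mul]
    have hle : n ≤ (ex N a ((k : ℤ) - n)).toNat + N * (l + 1) := by
      have h0 := ex_nonneg ha ((k : ℤ) - n)
      have h1 := ex_ge ha ((k : ℤ) - n)
      have h2 : |(k : ℤ) - n| = n - l := by
        rcases abs_cases ((k : ℤ) - n) with h | h <;> omega
      zify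
      rw [Int.toNat_of_nonneg h0]
      rw [h2] at h1
      nlinarith [Int.natCast_nonneg n]
    have h3 := pi_X_pow_mul hle key
    rw [mul_one] at h3
    rw [map_mul, ← h3, ← map_mul]
    congr 1
    ring
  · intro j hj
    have h1 := ex_ge ha j
    have h2 : |j| ≤ n := by
      by_contra h
      nlinarith [Int.natCast_nonneg n]
    rw [abs_le] at h2
    exact mem_image.mpr ⟨(j + n).toNat, mem_range.mpr (by omega), by omega⟩

end Pool.Agent.Lib.QSeries
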