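import Pool.Agent.Lib.QSeries.JTP

/-!
Logarithmic derivatives of infinite products: `IsEx f L` says `f = 1 + ⋯` and `θ f = L f`,
`Lam w` is the Lambert series `∑ d m, d * w d m * X ^ (d m)`.
-/

namespace Pool.Agent.Lib.QSeries

open PowerSeries Finset

section Ring

variable {K : Type*} [CommRing K]

/-- The operator `X d/dX`. -/
noncomputable def theta (f : PowerSeries K) : PowerSeries K := X * derivative K f

theorem coeff_theta (f : PowerSeries K) (n : ℕ) : coeff n (theta f) = n * coeff n f := by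
  unfold theta
  cases n with
  | zero => simp
  | succ n => rw [coeff_succ_X_mul, coeff_derivative]; push_cast; ring

theorem theta_mul (f g : PowerSeries K) : theta (f * g) = theta f * g + f * theta g := by
  unfold theta
  rw [Derivation.leibniz]
  simp only [smul_eq_mul]
  ring

theorem theta_add (f g : PowerSeries K) : theta (f + g) = theta f + theta g := by
  ext n; simp only [coeff_theta, map_add]; ring

theorem theta_sub (f g : PowerSeries K) : theta (f - g) = theta f - theta g := by
  ext n; simp only [coeff_theta, map_sub]; ring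

theorem theta_C (a : K) : theta (C a : PowerSeries K) = 0 := by
  simp [theta]

theorem theta_one : theta (1 : PowerSeries K) = 0 := by
  simp [theta]

theorem theta_zero : theta (0 : PowerSeries K) = 0 := by
  simp [theta]

theorem theta_X : theta (X : PowerSeries K) = X := by
  simp [theta]

theorem theta_natCast (a : ℕ) : theta (a : PowerSeries K) = 0 := by
  rw [← map_natCast (C : K →+* PowerSeries K), theta_C]

theorem theta_ofNat (a : ℕ) [a.AtLeastTwo] : theta (ofNat(a) : PowerSeries K) = 0 :=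
  theta_natCast a

theorem theta_C_mul (a : K) (f : PowerSeries K) : theta (C a * f) = C a * theta f := by
  rw [theta_mul, theta_C]; ring

theorem theta_pow (f : PowerSeries K) (n : ℕ) :
    theta (f ^ (n + 1)) = (n + 1 : ℕ) * f ^ n * theta f := by
  induction n with
  | zero => simp
  | succ n ih => rw [pow_succ, theta_mul, ih]; push_cast; ring

theorem pi_theta {n : ℕ} {f g : PowerSeries K} (h : pi K n f = pi K n g) :
    pi K n (theta f) = pi K n (theta g) := by
  rw [pi_eq_iff] at h ⊢
  intro i hi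
  rw [coeff_theta, coeff_theta, h i hi]

theorem theta_expand (k : ℕ) (hk : k ≠ 0) (f : PowerSeries K) :
    theta (expand k hk f) = k * expand k hk (theta f) := by
  ext n
  rw [coeff_theta, ← map_natCast (C : K →+* PowerSeries K), coeff_C_mul, coeff_expand,
    coeff_expand]
  split_ifs with h
  · obtain ⟨m, rfl⟩ := h
    rw [Nat.mul_div_cancel_left _ (Nat.pos_of_ne_zero hk), coeff_theta]
    push_cast; ring
  · simp

theorem map_theta {L : Type*} [CommRing L] (φ : K →+* L) (f : PowerSeries K) :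
    PowerSeries.map φ (theta f) = theta (PowerSeries.map φ f) := by
  ext n
  simp [coeff_theta]

/-- `f` has constant term `1` and logarithmic derivative `L`. -/
def IsEx (f L : PowerSeries K) : Prop := constantCoeff f = 1 ∧ theta f = L * f

theorem IsEx.one : IsEx (1 : PowerSeries K) 0 := ⟨by simp, by simp [theta_one]⟩

theorem IsEx.mul {f g L M : PowerSeries K} (hf : IsEx f L) (hg : IsEx g M) :
    IsEx (f * g) (L + M) :=
  ⟨by rw [map_mul, hf.1, hg.1, mul_one], by rw [theta_mul, hf.2, hg.2]; ring⟩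

theorem IsEx.pow {f L : PowerSeries K} (hf : IsEx f L) (n : ℕ) : IsEx (f ^ n) (n * L) := by
  induction n with
  | zero => simpa using IsEx.one
  | succ n ih =>
    have := ih.mul hf
    rw [← pow_succ] at this
    convert this using 1
    push_cast; ring

theorem IsEx.isUnit {f L : PowerSeries K} (hf : IsEx f L) : IsUnit f := by
  rw [isUnit_iff_constantCoeff, hf.1]; exact isUnit_one

theorem IsEx.of_mul {f g h L M : PowerSeries K} (hfg : f * g = h) (hg : IsEx g M)
    (hh : IsEx h L) : IsEx f (L - M) := by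
  subst hfg
  refine ⟨by have := hh.1; rwa [map_mul, hg.1, mul_one] at this, ?_⟩
  have h1 := hh.2
  rw [theta_mul, hg.2] at h1
  apply hg.isUnit.mul_right_cancel
  linear_combination h1

theorem IsEx.congr {f L M : PowerSeries K} (hf : IsEx f L) (h : L = M) : IsEx f M := h ▸ hf

theorem IsEx.expand {f L : PowerSeries K} (hf : IsEx f L) (k : ℕ) (hk : k ≠ 0) :
    IsEx (expand k hk f) (k * expand k hk L) :=
  ⟨by rw [constantCoeff_expand, hf.1], by rw [theta_expand, hf.2, map_mul]; ring⟩

theorem IsEx.map {L : Type*} [CommRing L] (φ : K →+* L) {f M : PowerSeries K} (hf : IsEx f M) :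
    IsEx (PowerSeries.map φ f) (PowerSeries.map φ M) :=
  ⟨by rw [← coeff_zero_eq_constantCoeff_apply, coeff_map, coeff_zero_eq_constantCoeff_apply, hf.1,
      map_one], by rw [← map_theta, hf.2, map_mul]⟩

theorem IsEx.of_approx {f L : PowerSeries K}
    (h : ∀ n, ∃ g M, IsEx g M ∧ pi K n f = pi K n g ∧ pi K n L = pi K n M) : IsEx f L := by
  constructor
  · obtain ⟨g, M, h1, h2, -⟩ := h 1
    have := pi_eq_iff.mp h2 0 one_pos
    rw [coeff_zero_eq_constantCoeff_apply, coeff_zero_eq_constantCoeff_apply] at this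
    rw [this, h1.1]
  · apply pi_ext
    intro n
    obtain ⟨g, M, h1, h2, h3⟩ := h n
    rw [pi_theta h2, h1.2, map_mul, map_mul, h2, h3]

theorem IsEx.unique [IsDomain K] [CharZero K] {f g L : PowerSeries K} (hf : IsEx f L)
    (hg : IsEx g L) : f = g := by
  obtain ⟨v, hv⟩ := hg.isUnit.exists_right_inv
  have h1 : (f * v) * g = f := by linear_combination f * hv
  have h2 := IsEx.of_mul h1 hg hf
  rw [sub_self] at h2
  have h3 : f * v = 1 := by
    ext n
    cases n with
    | zero => simpa using h2.1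
    | succ n =>
      have h4 := congrArg (coeff (n + 1)) h2.2
      rw [coeff_theta, zero_mul, map_zero] at h4
      rw [coeff_one, if_neg (Nat.succ_ne_zero n)]
      exact (mul_eq_zero.mp h4).resolve_left (Nat.cast_ne_zero.mpr (Nat.succ_ne_zero n))
  rw [← h1, h3, one_mul]

/-- The Lambert series `∑ d m, d * w d m * X ^ (d m)` over `d, m ≥ 1`. -/
noncomputable def Lam (w : ℕ → ℕ → K) : PowerSeries K :=
  PowerSeries.mk fun n => ∑ p ∈ n.divisorsAntidiagonal, (p.1 : K) * w p.1 p.2

theorem coeff_Lam (w : ℕ → ℕ → K) (n : ℕ) :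
    coeff n (Lam w) = ∑ p ∈ n.divisorsAntidiagonal, (p.1 : K) * w p.1 p.2 := coeff_mk _ _

theorem Lam_congr {w w' : ℕ → ℕ → K} (h : ∀ d m, 0 < d → 0 < m → w d m = w' d m) :
    Lam w = Lam w' := by
  ext n
  rw [coeff_Lam, coeff_Lam]
  refine sum_congr rfl fun p hp => ?_
  rw [h _ _ (Nat.pos_of_ne_zero (Nat.left_ne_zero_of_mem_divisorsAntidiagonal hp))
    (Nat.pos_of_ne_zero (Nat.right_ne_zero_of_mem_divisorsAntidiagonal hp))]

theorem pi_Lam {w w' : ℕ → ℕ → K} {n : ℕ} (h : ∀ d m, 0 < d → d < n → w d m = w' d m) :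
    pi K n (Lam w) = pi K n (Lam w') := by
  rw [pi_eq_iff]
  intro i hi
  rw [coeff_Lam, coeff_Lam]
  refine sum_congr rfl fun p hp => ?_
  have h1 := Nat.le_of_dvd (Nat.pos_of_ne_zero (Nat.mem_divisorsAntidiagonal.mp hp).2)
    (Dvd.intro _ (Nat.mem_divisorsAntidiagonal.mp hp).1)
  rw [h _ _ (Nat.pos_of_ne_zero (Nat.left_ne_zero_of_mem_divisorsAntidiagonal hp)) (by omega)]

theorem Lam_add (w w' : ℕ → ℕ → K) : Lam w + Lam w' = Lam fun d m => w d m + w' d m := by
  ext n
  simp only [map_add, coeff_Lam, ← sum_add_distrib, mul_add]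

theorem Lam_sub (w w' : ℕ → ℕ → K) : Lam w - Lam w' = Lam fun d m => w d m - w' d m := by
  ext n
  simp only [map_sub, coeff_Lam, ← sum_sub_distrib, mul_sub]

theorem Lam_neg (w : ℕ → ℕ → K) : -Lam w = Lam fun d m => -w d m := by
  ext n
  simp only [map_neg, coeff_Lam, ← sum_neg_distrib, mul_neg]

theorem Lam_smul (a : K) (w : ℕ → ℕ → K) : C a * Lam w = Lam fun d m => a * w d m := by
  ext n
  simp only [coeff_C_mul, coeff_Lam, mul_sum]
  exact sum_congr rfl fun _ _ => by ring

theorem Lam_nsmul (a : ℕ) (w : ℕ → ℕ → K) :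
    (a : PowerSeries K) * Lam w = Lam fun d m => a * w d m := by
  rw [← Lam_smul, map_natCast]

theorem Lam_zero : Lam (fun _ _ => (0 : K)) = 0 := by
  ext n
  simp [coeff_Lam]

theorem constantCoeff_Lam (w : ℕ → ℕ → K) : constantCoeff (Lam w) = 0 := by
  rw [← coeff_zero_eq_constantCoeff_apply, coeff_Lam]
  simp

theorem map_Lam {L : Type*} [CommRing L] (φ : K →+* L) (w : ℕ → ℕ → K) :
    PowerSeries.map φ (Lam w) = Lam fun d m => φ (w d m) := by
  ext n
  simp [coeff_Lam]

theorem Lam_expand_left (k : ℕ) (hk : k ≠ 0) (w : ℕ → ℕ → K) :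
    k * expand k hk (Lam w) = Lam fun d m => if k ∣ d then w (d / k) m else 0 := by
  ext n
  rw [← map_natCast (C : K →+* PowerSeries K), coeff_C_mul, coeff_expand, coeff_Lam, coeff_Lam]
  simp only [mul_ite, mul_zero]
  rw [← sum_filter]
  have hk' := Nat.pos_of_ne_zero hk
  split_ifs with h
  · obtain ⟨l, rfl⟩ := h
    rw [Nat.mul_div_cancel_left _ hk', mul_sum]
    refine sum_bij (fun p _ => (k * p.1, p.2)) ?_ ?_ ?_ ?_
    · intro p hp
      rw [Nat.mem_divisorsAntidiagonal] at hp
      rw [mem_filter, Nat.mem_divisorsAntidiagonal]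
      exact ⟨⟨by rw [← hp.1]; ring, mul_ne_zero hk hp.2⟩, Dvd.intro _ rfl⟩
    · intro p _ q _ hpq
      rw [Prod.mk.injEq] at hpq
      exact Prod.ext (Nat.eq_of_mul_eq_mul_left hk' hpq.1) hpq.2
    · rintro ⟨d, m⟩ hp
      rw [mem_filter, Nat.mem_divisorsAntidiagonal] at hp
      obtain ⟨⟨h1, h2⟩, e, he⟩ := hp
      simp only at h1 he
      subst he
      refine ⟨(e, m), ?_, rfl⟩
      rw [Nat.mem_divisorsAntidiagonal]
      exact ⟨Nat.eq_of_mul_eq_mul_left hk' (by rw [← h1]; ring), right_ne_zero_of_mul h2⟩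
    · intro p _
      simp only [Nat.mul_div_cancel_left _ hk']
      push_cast; ring
  · symm
    refine sum_eq_zero fun p hp => ?_
    rw [mem_filter, Nat.mem_divisorsAntidiagonal] at hp
    exact absurd (hp.1.1 ▸ hp.2.mul_right _) h

theorem Lam_expand_right (k : ℕ) (hk : k ≠ 0) (w : ℕ → ℕ → K) :
    expand k hk (Lam w) = Lam fun d m => if k ∣ m then w d (m / k) else 0 := by
  ext n
  rw [coeff_expand, coeff_Lam, coeff_Lam]
  simp only [mul_ite, mul_zero]
  rw [← sum_filter]
  have hk' := Nat.pos_of_ne_zero hk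
  split_ifs with h
  · obtain ⟨l, rfl⟩ := h
    rw [Nat.mul_div_cancel_left _ hk']
    refine sum_bij (fun p _ => (p.1, k * p.2)) ?_ ?_ ?_ ?_
    · intro p hp
      rw [Nat.mem_divisorsAntidiagonal] at hp
      rw [mem_filter, Nat.mem_divisorsAntidiagonal]
      exact ⟨⟨by rw [← hp.1]; ring, mul_ne_zero hk hp.2⟩, Dvd.intro _ rfl⟩
    · intro p _ q _ hpq
      rw [Prod.mk.injEq] at hpq
      exact Prod.ext hpq.1 (Nat.eq_of_mul_eq_mul_left hk' hpq.2)
    · rintro ⟨d, m⟩ hp
      rw [mem_filter, Nat.mem_divisorsAntidiagonal] at hp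
      obtain ⟨⟨h1, h2⟩, e, he⟩ := hp
      simp only at h1 he
      subst he
      refine ⟨(d, e), ?_, rfl⟩
      rw [Nat.mem_divisorsAntidiagonal]
      exact ⟨Nat.eq_of_mul_eq_mul_left hk' (by rw [← h1]; ring), right_ne_zero_of_mul h2⟩
    · intro p _
      simp only [Nat.mul_div_cancel_left _ hk']
  · symm
    refine sum_eq_zero fun p hp => ?_
    rw [mem_filter, Nat.mem_divisorsAntidiagonal] at hp
    exact absurd (hp.1.1 ▸ hp.2.mul_left _) h

theorem isEx_one_sub_X (u : K) :
    IsEx (1 - C u * X) (-Lam fun d m => if d = 1 then u ^ m else 0) := by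
  refine ⟨by simp, ?_⟩
  have h : ∀ n, coeff n (Lam fun d m => if d = 1 then u ^ m else 0) =
      if n = 0 then 0 else u ^ n := by
    intro n
    rw [coeff_Lam]
    split_ifs with hn
    · subst hn; simp
    · rw [sum_eq_single (1, n)]
      · simp
      · intro p hp hne
        rw [if_neg, mul_zero]
        intro h1
        apply hne
        have := (Nat.mem_divisorsAntidiagonal.mp hp).1
        rw [h1, one_mul] at this
        exact Prod.ext h1 this
      · intro h1
        exact absurd (Nat.mem_divisorsAntidiagonal.mpr ⟨one_mul n, hn⟩) h1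
  rw [theta_sub, theta_one, theta_C_mul, theta_X]
  have h2 : (Lam fun d m => if d = 1 then u ^ m else 0) =
      C u * X + C u * (X * Lam fun d m => if d = 1 then u ^ m else 0) := by
    ext n
    rw [map_add, coeff_C_mul, coeff_C_mul, h]
    cases n with
    | zero => simp
    | succ n =>
      rw [coeff_succ_X_mul, h, coeff_X]
      cases n with
      | zero => simp
      | succ n => simp [pow_succ]; ring
  linear_combination h2

theorem isEx_factor (u : K) {e : ℕ} (he : 0 < e) :
    IsEx (1 - C u * X ^ e) (-Lam fun d m => if d = e then u ^ m else 0) := by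
  have h := (isEx_one_sub_X u).expand e he.ne'
  rw [map_sub, map_one, map_mul, expand_C, expand_X, map_neg, mul_neg, Lam_expand_left] at h
  refine h.congr ?_
  congr 1
  refine Lam_congr fun d m _ _ => ?_
  by_cases hd : d = e
  · subst hd; simp [Nat.div_self he]
  · rw [if_neg hd]
    split_ifs with h1 h2
    · obtain ⟨l, rfl⟩ := h1
      rw [Nat.mul_div_cancel_left _ he] at h2
      subst h2
      simp at hd
    · rfl
    · rfl

theorem isEx_prod (u : K) {N a : ℕ} (ha : 0 < a) (n : ℕ) :
    IsEx (∏ i ∈ range n, (1 - C u * X ^ (a + N * i)))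
      (-Lam fun d m => ∑ i ∈ range n, if d = a + N * i then u ^ m else 0) := by
  induction n with
  | zero => simpa [Lam_zero] using IsEx.one
  | succ n ih =>
    rw [prod_range_succ]
    refine (ih.mul (isEx_factor u (by omega))).congr ?_
    rw [← neg_add, Lam_add]
    simp only [sum_range_succ]

theorem pi_Lam_prod (u : K) {N a : ℕ} (ha : 0 < a) (haN : a ≤ N) (n : ℕ) :
    pi K n (Lam fun d m => if d % N = a % N then u ^ m else 0) =
      pi K n (Lam fun d m => ∑ i ∈ range n, if d = a + N * i then u ^ m else 0) := by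
  refine pi_Lam fun d m hd hdn => ?_
  split_ifs with h
  · have had : a ≤ d := by
      by_contra h1
      rw [Nat.mod_eq_of_lt (show d < N by omega)] at h
      rcases haN.lt_or_eq with h2 | h2
      · rw [Nat.mod_eq_of_lt h2] at h; omega
      · rw [h2, Nat.mod_self] at h; omega
    obtain ⟨j, hj⟩ : N ∣ d - a := (Nat.modEq_iff_dvd' had).mp h.symm
    have hj' : d = a + N * j := by omega
    rw [sum_eq_single j, if_pos hj']
    · intro i _ hi
      rw [if_neg]
      intro h1
      exact hi (Nat.eq_of_mul_eq_mul_left (show 0 < N by omega) (by omega))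
    · intro h1
      exfalso
      apply h1
      rw [mem_range]
      nlinarith
  · symm
    refine sum_eq_zero fun i _ => if_neg fun h1 => h ?_
    rw [h1, Nat.add_mul_mod_self_left]

end Ring

section Field

variable {K : Type*} [Field K]

theorem qp_eq (N n : ℕ) : qp ((X : PowerSeries K) ^ N) n =
    ∏ i ∈ range n, (1 - C (1 : K) * X ^ (N + N * i)) := by
  unfold qp
  refine prod_congr rfl fun i _ => ?_
  rw [map_one]; ring

/-- Jacobi's triple product identity through logarithmic derivatives. -/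
theorem isEx_th {u : K} (hu : u ≠ 0) {N a : ℕ} (ha : 0 < a) (haN : a < N) :
    IsEx (th u N a) (-Lam fun d m => (if d % N = a then (-u) ^ m else 0) +
      (if d % N = N - a then (-u⁻¹) ^ m else 0) + if d % N = 0 then 1 else 0) := by
  refine IsEx.of_approx fun n => ⟨_, _, ((isEx_prod (-u) (N := N) ha n).mul
    (isEx_prod (-u⁻¹) (N := N) (show 0 < N - a by omega) n)).mul
    (isEx_prod 1 (N := N) (show 0 < N by omega) n), ?_, ?_⟩
  · rw [jtp hu (by omega) haN.le, qp_eq]
    simp only [map_neg, neg_mul, sub_neg_eq_add]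
  · simp only [map_add, map_neg]
    rw [← pi_Lam_prod _ ha haN.le, ← pi_Lam_prod _ (by omega) (Nat.sub_le N a),
      ← pi_Lam_prod _ (by omega) le_rfl, ← neg_add, ← neg_add, ← map_add, ← map_add, Lam_add,
      Lam_add, Nat.mod_eq_of_lt haN, Nat.mod_eq_of_lt (show N - a < N by omega), Nat.mod_self]
    simp only [one_pow]

theorem th_neg_one_zero {N : ℕ} (hN : 0 < N) : th (-1 : K) N 0 = 0 := by
  apply pi_ext
  intro n
  refine pi_mono (Nat.le_succ n) ?_
  rw [jtp (by simp) hN (Nat.zero_le N), prod_range_succ']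
  simp

/-- The case `a = 0`, `N = 1` of the triple product identity. -/
theorem isEx_th_zero {u : K} (hu : u ≠ 0) (hu1 : 1 + u ≠ 0) :
    IsEx (C (1 + u)⁻¹ * th u 1 0) (-Lam fun _ m => (-u) ^ m + (-u⁻¹) ^ m + 1) := by
  refine IsEx.of_approx fun n => ⟨_, _, ((isEx_prod (-u) (N := 1) one_pos n).mul
    (isEx_prod (-u⁻¹) (N := 1) one_pos (n + 1))).mul
    (isEx_prod 1 (N := 1) one_pos (n + 1)), ?_, ?_⟩
  · have h := pi_mono (Nat.le_succ n) (jtp hu one_pos (Nat.zero_le 1) (n + 1))
    rw [map_mul, h, ← map_mul, qp_eq, prod_range_succ']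
    congr 1
    have h1 : (C (1 + u)⁻¹ : PowerSeries K) * (1 + C u) = 1 := by
      rw [← map_one C, ← map_add, ← map_mul, inv_mul_cancel₀ hu1]
    have h2 : ∏ i ∈ range n, (1 + C u * X ^ (0 + 1 * (i + 1)) : PowerSeries K) =
        ∏ i ∈ range n, (1 - C (-u) * X ^ (1 + 1 * i)) :=
      prod_congr rfl fun i _ => by rw [map_neg]; ring
    have h3 : ∏ i ∈ range (n + 1), (1 + C u⁻¹ * X ^ (1 - 0 + 1 * i) : PowerSeries K) =
        ∏ i ∈ range (n + 1), (1 - C (-u⁻¹) * X ^ (1 + 1 * i)) :=
      prod_congr rfl fun i _ => by rw [map_neg]; ring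
    rw [h2, h3]
    linear_combination (∏ i ∈ range n, (1 - C (-u) * X ^ (1 + 1 * i))) *
      (∏ i ∈ range (n + 1), (1 - C (-u⁻¹) * X ^ (1 + 1 * i))) *
      (∏ i ∈ range (n + 1), (1 - C (1 : K) * X ^ (1 + 1 * i))) * h1
  · simp only [map_add, map_neg]
    rw [← pi_Lam_prod _ one_pos le_rfl,
      ← pi_mono (Nat.le_succ n) (pi_Lam_prod (-u⁻¹) one_pos le_rfl (n + 1)),
      ← pi_mono (Nat.le_succ n) (pi_Lam_prod (1 : K) one_pos le_rfl (n + 1)),
      ← neg_add, ← neg_add, ← map_add, ← map_add, Lam_add, Lam_add]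
    simp only [one_pow, Nat.mod_one, if_true]

end Field

end Pool.Agent.Lib.QSeries
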