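import Pool.Agent.Lib.QSeries.Lam

/-!
Reflective arithmetic of rational functions in a power series `x` over `ZMod m`.
Polynomial identities modulo `m` are checked by Kronecker substitution.
-/

namespace Pool.Agent.Lib.QSeries

open PowerSeries

/-- Polynomial expressions with natural coefficients. -/
inductive PE
  | lit (l : List ℕ)
  | add (a b : PE)
  | mul (a b : PE)
  | pow (a : PE) (k : ℕ)

/-- Horner evaluation. -/
def ev {S : Type*} [CommSemiring S] (x : S) : List ℕ → S
  | [] => 0
  | a :: p => a + x * ev x p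

/-- Value of an expression. -/
def den {S : Type*} [CommSemiring S] (x : S) : PE → S
  | .lit l => ev x l
  | .add a b => den x a + den x b
  | .mul a b => den x a * den x b
  | .pow a k => den x a ^ k

/-- Horner evaluation in `ℕ`. -/
def evN (B : ℕ) : List ℕ → ℕ
  | [] => 0
  | a :: p => Nat.add a (Nat.mul B (evN B p))

/-- Value of an expression in `ℕ`. -/
def val (B : ℕ) : PE → ℕ
  | .lit l => evN B l
  | .add a b => Nat.add (val B a) (val B b)
  | .mul a b => Nat.mul (val B a) (val B b)
  | .pow a k => Nat.pow (val B a) k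

/-- All digits in base `B` are divisible by `m`. -/
def dz (m B : ℕ) : ℕ → ℕ → Bool
  | 0, n => n == 0
  | f + 1, n => n == 0 || (n % B % m == 0 && dz m B f (n / B))

/-- Zero test modulo `m`. -/
def pzero (m : ℕ) (e : PE) : Bool :=
  decide (val 1 e < 2 ^ 600) && dz m (2 ^ 600) 3000 (val (2 ^ 600) e)

/-- Auxiliary function for the derivative. -/
def lgo : ℕ → List ℕ → List ℕ
  | _, [] => []
  | k, a :: p => k * a :: lgo (k + 1) p

/-- Derivative. -/
def der : PE → PE
  | .lit l => .lit (lgo 1 l.tail)
  | .add a b => .add (der a) (der b)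
  | .mul a b => .add (.mul (der a) b) (.mul a (der b))
  | .pow a k => .mul (.lit [k]) (.mul (.pow a (k - 1)) (der a))

/-- Difference modulo `m`. -/
def psub (m : ℕ) (p q : PE) : PE := .add p (.mul (.lit [m - 1]) q)

/-- Constant term one. -/
def punit (m : ℕ) (e : PE) : Bool := val 0 e % m == 1

/-- Fractions. -/
abbrev Fr := PE × PE

/-- Sum of fractions. -/
def fadd (F G : Fr) : Fr := (.add (.mul F.1 G.2) (.mul G.1 F.2), .mul F.2 G.2)

/-- Difference of fractions. -/
def fsub (m : ℕ) (F G : Fr) : Fr := (psub m (.mul F.1 G.2) (.mul G.1 F.2), .mul F.2 G.2)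

/-- Product of fractions. -/
def fmul (F G : Fr) : Fr := (.mul F.1 G.1, .mul F.2 G.2)

/-- Power of a fraction. -/
def fpow (F : Fr) (k : ℕ) : Fr := (.pow F.1 k, .pow F.2 k)

/-- Equality test of fractions. -/
def feq (m : ℕ) (F G : Fr) : Bool := pzero m (psub m (.mul F.1 G.2) (.mul G.1 F.2))

/-- The operator `θ` when `θ x = W x`. -/
def fth (m : ℕ) (W F : Fr) : Fr :=
  (.mul (.mul (.lit [0, 1]) W.1) (psub m (.mul (der F.1) F.2) (.mul F.1 (der F.2))),
    .mul W.2 (.mul F.2 F.2))

/-- Numerator of a polynomial evaluated at a fraction. -/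
def hnum (Y : Fr) : List ℕ → PE
  | [] => .lit []
  | a :: p => .add (.mul (.lit [a]) (.pow Y.2 (p.length + 1))) (.mul Y.1 (hnum Y p))

/-- A quotient of two polynomials evaluated at a fraction. -/
def fcomp (Y : Fr) (p q : List ℕ) : Fr :=
  (.mul (hnum Y p) (.pow Y.2 q.length), .mul (hnum Y q) (.pow Y.2 p.length))

/-- A quotient of two polynomials. -/
def fl (P : List ℕ × List ℕ) : Fr := (.lit P.1, .lit P.2)

theorem ev_cons {S : Type*} [CommSemiring S] (x : S) (a : ℕ) (p : List ℕ) :
    ev x (a :: p) = a + x * ev x p := rfl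

theorem map_ev {S T : Type*} [CommSemiring S] [CommSemiring T] (φ : S →+* T) (x : S) :
    ∀ p : List ℕ, φ (ev x p) = ev (φ x) p
  | [] => by simp [ev]
  | a :: p => by rw [ev_cons, ev_cons, map_add, map_mul, map_natCast, map_ev φ x p]

theorem map_den {S T : Type*} [CommSemiring S] [CommSemiring T] (φ : S →+* T) (x : S) :
    ∀ e : PE, φ (den x e) = den (φ x) e
  | .lit l => map_ev φ x l
  | .add a b => by simp only [den, map_add, map_den φ x a, map_den φ x b]
  | .mul a b => by simp only [den, map_mul, map_den φ x a, map_den φ x b]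
  | .pow a k => by simp only [den, map_pow, map_den φ x a]

theorem evN_eq (B : ℕ) : ∀ p : List ℕ, evN B p = ev B p
  | [] => rfl
  | a :: p => by rw [evN, ev_cons, evN_eq B p]; rfl

theorem val_eq (B : ℕ) : ∀ e : PE, val B e = den B e
  | .lit l => evN_eq B l
  | .add a b => by rw [val, den, val_eq B a, val_eq B b]; rfl
  | .mul a b => by rw [val, den, val_eq B a, val_eq B b]; rfl
  | .pow a k => by rw [val, den, val_eq B a]; rfl

section

variable {S : Type*} [CommRing S] {m : ℕ} (hm : (m : S) = 0) (x : S)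

include hm

theorem cast_mod (a : ℕ) : ((a % m : ℕ) : S) = a := by
  conv_rhs => rw [← Nat.mod_add_div a m]
  push_cast
  rw [hm]; ring

theorem dz_sound {B : ℕ} (hB : 1 ≤ B) : ∀ (f : ℕ) (P : Polynomial ℕ), P.eval 1 < B →
    dz m B f (P.eval B) = true → P.eval₂ (Nat.castRingHom S) x = 0 := by
  have h0 : ∀ P : Polynomial ℕ, P.eval B = 0 → P.eval₂ (Nat.castRingHom S) x = 0 := by
    intro P hP
    have : P = 0 := by
      ext i
      rw [Polynomial.eval_eq_sum, Polynomial.sum_def, Finset.sum_eq_zero_iff] at hP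
      by_contra h
      have h1 := hP i (Polynomial.mem_support_iff.mpr h)
      exact absurd h1 (mul_ne_zero h (pow_ne_zero _ (by omega)))
    rw [this, Polynomial.eval₂_zero]
  intro f
  induction f with
  | zero => intro P _ h; exact h0 P (by simpa [dz] using h)
  | succ f ih =>
    intro P h1 h
    simp only [dz, Bool.or_eq_true, Bool.and_eq_true, beq_iff_eq] at h
    rcases h with h | ⟨h2, h3⟩
    · exact h0 P h
    · have e := Polynomial.X_mul_divX_add P
      have e1 : P.eval 1 = P.divX.eval 1 + P.coeff 0 := by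
        conv_lhs => rw [← e]
        simp
      have e2 : P.eval B = P.coeff 0 + B * P.divX.eval B := by
        conv_lhs => rw [← e]
        simp [add_comm]
      have h4 : P.coeff 0 < B := by omega
      rw [e2, Nat.add_mul_mod_self_left, Nat.mod_eq_of_lt h4] at h2
      rw [e2, Nat.add_mul_div_left _ _ (by omega), Nat.div_eq_of_lt h4, zero_add] at h3
      have h5 := ih P.divX (by omega) h3
      have h6 : ((P.coeff 0 : ℕ) : S) = 0 := by rw [← cast_mod hm, h2, Nat.cast_zero]
      rw [← e]
      simp [Polynomial.eval₂_add, Polynomial.eval₂_mul, h5, h6]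

theorem den_pzero (e : PE) (h : pzero m e = true) : den x e = 0 := by
  simp only [pzero, Bool.and_eq_true, decide_eq_true_eq, val_eq] at h
  have h1 : ∀ B : ℕ, (den (Polynomial.X : Polynomial ℕ) e).eval B = den B e := fun B => by
    have := map_den (Polynomial.evalRingHom B) Polynomial.X e
    simpa using this
  have h2 := map_den (Polynomial.eval₂RingHom (Nat.castRingHom S) x) Polynomial.X e
  simp only [Polynomial.coe_eval₂RingHom, Polynomial.eval₂_X] at h2
  rw [← h2]
  exact dz_sound hm x Nat.one_le_two_pow _ _ (by rw [h1]; exact h.1) (by rw [h1]; exact h.2)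

theorem den_psub (h0 : 0 < m) (p q : PE) : den x (psub m p q) = den x p - den x q := by
  simp only [psub, den, ev]
  rw [Nat.cast_sub h0, hm]
  push_cast; ring

end

/-- `f` is represented by the fraction `F` in `x`. -/
def Rep {S : Type*} [CommRing S] (x f : S) (F : Fr) : Prop :=
  IsUnit (den x F.2) ∧ f * den x F.2 = den x F.1

section

variable {S : Type*} [CommRing S] {m : ℕ} (hm : (m : S) = 0) (h0 : 0 < m) {x : S}

theorem Rep.poly (p : PE) : Rep x (den x p) (p, .lit [1]) := by
  simp [Rep, den, ev]

theorem Rep.self : Rep x x (.lit [0, 1], .lit [1]) := by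
  simp [Rep, den, ev]

theorem Rep.nat (a : ℕ) : Rep x a (.lit [a], .lit [1]) := by
  simp [Rep, den, ev]

theorem Rep.map {T : Type*} [CommRing T] (φ : S →+* T) {f : S} {F : Fr} (h : Rep x f F) :
    Rep (φ x) (φ f) F := by
  refine ⟨?_, ?_⟩
  · rw [← map_den]; exact h.1.map φ
  · rw [← map_den, ← map_den, ← map_mul, h.2]

theorem exists_rep {F : Fr} (h : IsUnit (den x F.2)) : ∃ f, Rep x f F := by
  obtain ⟨v, hv⟩ := h.exists_left_inv
  exact ⟨den x F.1 * v, h, by rw [mul_assoc, hv, mul_one]⟩

theorem Rep.add {f g : S} {F G : Fr} (hf : Rep x f F) (hg : Rep x g G) :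
    Rep x (f + g) (fadd F G) := by
  refine ⟨hf.1.mul hg.1, ?_⟩
  simp only [fadd, den]
  linear_combination den x G.2 * hf.2 + den x F.2 * hg.2

theorem Rep.mul {f g : S} {F G : Fr} (hf : Rep x f F) (hg : Rep x g G) :
    Rep x (f * g) (fmul F G) := by
  refine ⟨hf.1.mul hg.1, ?_⟩
  simp only [fmul, den]
  rw [← hf.2, ← hg.2]; ring

theorem Rep.pow {f : S} {F : Fr} (hf : Rep x f F) (k : ℕ) : Rep x (f ^ k) (fpow F k) := by
  refine ⟨hf.1.pow k, ?_⟩
  simp only [fpow, den]
  rw [← hf.2, mul_pow]

theorem Rep.hnum {y : S} {Y : Fr} (hy : Rep x y Y) :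
    ∀ p : List ℕ, ev y p * den x Y.2 ^ p.length = den x (hnum Y p)
  | [] => by simp [QSeries.hnum, den, ev]
  | a :: p => by
    simp only [QSeries.hnum, den, ev, List.length_cons]
    rw [← Rep.hnum hy p, ← hy.2]
    ring

theorem Rep.comp (φ : S →+* S) {Y : Fr} (hy : Rep x (φ x) Y) {f : S} {P : List ℕ × List ℕ}
    (hf : Rep x f (fl P)) : Rep x (φ f) (fcomp Y P.1 P.2) := by
  have h3 := hf.map φ
  simp only [Rep, fl, den] at h3
  refine ⟨?_, ?_⟩
  · simp only [fcomp, den]
    rw [← hy.hnum]
    exact (h3.1.mul (hy.1.pow _)).mul (hy.1.pow _)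
  · simp only [fcomp, den]
    rw [← hy.hnum, ← hy.hnum, ← h3.2]; ring

include hm h0

theorem Rep.sub {f g : S} {F G : Fr} (hf : Rep x f F) (hg : Rep x g G) :
    Rep x (f - g) (fsub m F G) := by
  refine ⟨hf.1.mul hg.1, ?_⟩
  simp only [fsub, den_psub hm x h0, den]
  linear_combination den x G.2 * hf.2 - den x F.2 * hg.2

theorem Rep.eq {f g : S} {F G : Fr} (hf : Rep x f F) (hg : Rep x g G) (h : feq m F G = true) :
    f = g := by
  have h1 := den_pzero hm x _ h
  rw [den_psub hm x h0] at h1
  simp only [den] at h1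
  rw [← hf.2, ← hg.2] at h1
  apply (hf.1.mul hg.1).mul_right_cancel
  linear_combination h1

theorem Rep.simp {f : S} {F G : Fr} (hf : Rep x f F) (hG : IsUnit (den x G.2))
    (h : feq m F G = true) : Rep x f G := by
  obtain ⟨g, hg⟩ := exists_rep hG
  rwa [hf.eq hm h0 hg h]

end

section

variable {K : Type*} [CommRing K] {m : ℕ} (hm : (m : PowerSeries K) = 0) (h0 : 0 < m)
  {x : PowerSeries K}

theorem ev_lgo : ∀ (p : List ℕ) (k : ℕ),
    ev x (lgo k p) * theta x = k * ev x p * theta x + x * theta (ev x p)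
  | [], k => by simp [lgo, ev, theta_zero]
  | a :: p, k => by
    have h := ev_lgo p (k + 1)
    rw [lgo, ev_cons, ev_cons, theta_add, theta_natCast, theta_mul]
    push_cast at h ⊢
    linear_combination x * h

theorem theta_den : ∀ e : PE, theta (den x e) = den x (der e) * theta x
  | .lit [] => by simp [der, den, ev, lgo, theta_zero]
  | .lit (a :: p) => by
    simp only [der, den, List.tail_cons, ev_lgo, ev_cons, theta_add, theta_natCast, theta_mul]
    push_cast; ring
  | .add a b => by simp only [der, den, theta_add, theta_den a, theta_den b]; ring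
  | .mul a b => by simp only [der, den, theta_mul, theta_den a, theta_den b]; ring
  | .pow a 0 => by simp [der, den, ev, theta_one]
  | .pow a (k + 1) => by
    simp only [der, den, ev, theta_pow, theta_den a, Nat.add_sub_cancel]; ring

include hm

theorem isUnit_den (hx : constantCoeff x = 0) (e : PE) (h : punit m e = true) :
    IsUnit (den x e) := by
  simp only [punit, beq_iff_eq, val_eq] at h
  have h1 : (m : K) = 0 := by
    have := congrArg constantCoeff hm
    rwa [map_natCast, map_zero] at this
  have h2 := map_den (Nat.castRingHom K) 0 e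
  rw [map_zero, Nat.coe_castRingHom, ← cast_mod h1, h] at h2
  rw [isUnit_iff_constantCoeff, map_den, hx, ← h2, Nat.cast_one]
  exact isUnit_one

include h0

theorem Rep.theta {w f : PowerSeries K} {W F : Fr} (hf : Rep x f F) (hx : theta x = w * x)
    (hw : Rep x w W) : Rep x (theta f) (fth m W F) := by
  refine ⟨hw.1.mul (hf.1.mul hf.1), ?_⟩
  simp only [fth, den_psub hm x h0, den, ev]
  have h := congrArg QSeries.theta hf.2
  rw [theta_mul, theta_den, theta_den, hx] at h
  rw [← hf.2, ← hw.2]
  push_cast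
  linear_combination den x W.2 * den x F.2 * h

end

end Pool.Agent.Lib.QSeries
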